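import Pool.Agent.Helper39.LG.Base

set_option autoImplicit false

namespace Pool.Agent.Results.MP_32c87b_al.Full

open Pool.Agent.Helper39.LG

universe u

/-- Every lattice-ordered group (in any universe) is isomorphic, as a group and as a lattice, to the
group of all order automorphisms of a partially ordered set, ordered pointwise; the two lattice
operations are even computed pointwise in the partially ordered set. -/
theorem result :
    ∀ (G : Type u) [Group G] [Lattice G] [MulLeftMono G] [MulRightMono G],
      ∃ (Ω : Type u) (_ : PartialOrder Ω) (φ : G ≃* (Ω ≃o Ω)),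
        (∀ a b : G, a ≤ b ↔ ∀ x : Ω, φ a x ≤ φ b x) ∧
        (∀ (a b : G) (x : Ω), IsLUB {φ a x, φ b x} (φ (a ⊔ b) x)) ∧
        (∀ (a b : G) (x : Ω), IsGLB {φ a x, φ b x} (φ (a ⊓ b) x)) := by
  intro G _ _ _ _
  rcases subsingleton_or_nontrivial G with hG | hG
  · refine ⟨PUnit, inferInstance, MulEquiv.ofBijective (1 : G →* (PUnit ≃o PUnit))
      ⟨fun a b _ => Subsingleton.elim _ _, fun ψ => ⟨1, ?_⟩⟩, ?_, ?_, ?_⟩
    · ext x
    · intro a b
      exact ⟨fun _ _ => le_rfl, fun _ => (Subsingleton.elim a b).le⟩
    · intro a b x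
      refine ⟨fun z _ => le_of_eq (Subsingleton.elim _ _), fun z _ => le_of_eq (Subsingleton.elim _ _)⟩
    · intro a b x
      refine ⟨fun z _ => le_of_eq (Subsingleton.elim _ _), fun z _ => le_of_eq (Subsingleton.elim _ _)⟩
  · obtain ⟨_, _⟩ := exists_wellFoundedLT (Cp G)
    let c : Cp G → G := Cp.val
    have hc : Function.Surjective c := fun g => ⟨⟨g⟩, rfl⟩
    let _ := ord c
    have hmul : ∀ a b : G, actIso c (a * b) = actIso c a * actIso c b := fun a b =>
      OrderIso.ext (funext fun o => act_mul a b o)
    have hbij : Function.Bijective (actIso c) := by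
      refine ⟨?_, ?_⟩
      · intro x y hxy
        have h1 : act x (Om.p 1 ⊤ : Om G (Cp G)) = act y (Om.p 1 ⊤) :=
          congrArg (fun ψ : Om G (Cp G) ≃o Om G (Cp G) => ψ (Om.p 1 ⊤ : Om G (Cp G))) hxy
        injection h1 with h2
        simpa using h2
      · intro ψ
        obtain ⟨x, hx⟩ := rigid c hc ψ
        exact ⟨x, OrderIso.ext (funext fun o => (hx o).symm)⟩
    refine ⟨Om G (Cp G), ord c, { Equiv.ofBijective (actIso c) hbij with map_mul' := hmul }, ?_, ?_, ?_⟩
    · intro a b
      constructor
      · intro hab o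
        cases o with
        | w j => exact le_refl (α := WithTop (WithTop (Cp G))) j
        | p g i => exact Or.inl ⟨rfl, mul_le_mul_left hab g⟩
      · intro h
        have h1 := h (Om.p 1 ⊤)
        rcases h1 with ⟨_, h1⟩ | ⟨k, h0, _⟩
        · simpa using h1
        · exact absurd h0.symm WithTop.coe_ne_top
    · exact fun a b x => isLUB_act c a b x
    · exact fun a b x => isGLB_act c a b x

end Pool.Agent.Results.MP_32c87b_al.Full
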